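import Pool.Agent.H869R3.FN.Two

set_option autoImplicit false

/-!
# Solutions to Post's problem: non-uniformity with advice

`W r X` is the set c.e. in `X` with index `r`, `J X` is the jump of `X`, `le Y X` is Turing
reducibility `Y ≤_T X` (Mathlib's), `ch P` is the characteristic function of `P`, and `Red c X Y`
says that the program `c` reduces `Y` to `X` (`Pool/Agent/H639/LU/Defs.lean`).

A degree invariant solution to Post's problem gives, for each pair `(i, j)` of programs and all `X`,
`Y` with `X ≡_T Y` via `(i, j)`, some program which reduces `W_r^Y` to `W_r^X`. The theorem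
`BoundedNonuniformity` of this folder says that for a solution on a cone there is no bound for the
number of these programs which is valid for all `(i, j)`. Here we allow advice: a number `b (X)`,
which depends on `X` in an arbitrary way, and a number `a (Y)`, such that the classes
`{Y : a (Y) = c}` are countable unions of closed sets (for example, `a` is a pointwise limit of
continuous functions, as the numbers which are computed in the limit from `Y` and a parameter).

* Part 1 (the local form). Let `W_r^X ≰_T X` on a cone, and let `a` be such a colouring. For all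
  `X` in a cone the following holds. If `V ≥_T X` enumerates, for some `k`, sets `L (i, j)` of at most
  `k` programs, such that for all `Y` with the colour of `X` and `X ≡_T Y` via `(i, j)` some member of
  `L (i, j)` reduces `W_r^Y` to `V`, then `X' ≤_T V`. (`k` and the index of the enumeration depend
  on `X` and `V`; so this includes arbitrary advice on `X`.)
* Part 2. Let `W_r` solve Post's problem on a cone, let `a` be such a colouring, `b` any function
  from sets to numbers and `k` any function from numbers to numbers. Then there is a single pair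
  `(i, j)` of programs such that for all families of sets `L_c` of at most `k (c)` programs and all `z`
  there are `X ≥_T z` and `Y` of the same colour, `X ≡_T Y` via `(i, j)`, such that no member of
  `L_{b (X)}` reduces `W_r^Y` to `W_r^X`.
* Part 3. The condition on the colouring cannot be omitted: there is a colouring for which different
  sets of the same Turing degree have different colours.
* Part 4. All pointwise limits of continuous functions (so the numbers computed in the limit from
  `Y` and a fixed parameter) are such colourings.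
-/

namespace Pool.Agent.Results.MP_57825d_lc.ColouredNonuniformity

open Nat.Partrec (Code)
open Encodable
open Pool.Agent.H639.LU Pool.Agent.H869R3.FN
open Pool.Agent.Helper446.Defs Pool.Agent.Helper446.Oracle

/-- A colouring of the Cantor space with countably many colours, whose colour classes are countable
unions of closed sets. -/
def IsColouring (a : (ℕ → Bool) → ℕ) : Prop :=
  ∀ c : ℕ, ∃ K : ℕ → Set (ℕ → Bool), (∀ m, IsClosed (K m)) ∧ {Y | a Y = c} = ⋃ m, K m

theorem clo_of_closed {K : Set (ℕ → Bool)} (hK : IsClosed K) : Clo K := by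
  intro Y hY
  choose Z hZ hZ' using hY
  refine hK.mem_of_tendsto (f := Z) (b := Filter.atTop) (x := Y) ?_ (Filter.Eventually.of_forall hZ)
  rw [tendsto_pi_nhds]
  intro n
  refine tendsto_const_nhds.congr' ?_
  filter_upwards [Filter.eventually_gt_atTop n] with t ht
  have h1 := congrArg (fun l : Str => l[n]?) (hZ' t)
  simp only [seg_get] at h1
  rw [if_pos ht, if_pos ht] at h1
  exact (Option.some_inj.1 h1).symm

theorem local_form (r : Code) (z₀ : ℕ → Bool) (hr : ∀ X, le z₀ X → ¬ le (ch (W r X)) X)
    (a : (ℕ → Bool) → ℕ) (ha : IsColouring a) : ∃ z : ℕ → Bool, ∀ X V : ℕ → Bool, le z X →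
      le X V → ∀ (k : ℕ) (e : Code),
        (∀ i j : Code, {l : Code | W e V (encode (i, j, l))}.encard ≤ k) →
        (∀ (i j : Code) (Y : ℕ → Bool), Red i X Y → Red j Y X → a Y = a X →
          ∃ l : Code, W e V (encode (i, j, l)) ∧ Red l V (ch (W r Y))) → le (ch (J X)) V := by
  classical
  choose K hK hKa using ha
  -- the parameters
  have h1 : ∀ q : ℕ, ∃ z : ℕ → Bool, ∀ X, le z X →
      X ∈ K q.unpair.1 q.unpair.2.unpair.1 → ∀ V : ℕ → Bool, le X V → ∀ e : Code,
      (∀ i j : Code, {l : Code | W e V (encode (i, j, l))}.encard ≤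
        (q.unpair.2.unpair.2 : ℕ)) →
      (∀ (i j : Code) (Y : ℕ → Bool), Y ∈ K q.unpair.1 q.unpair.2.unpair.1 →
        Red i X Y → Red j Y X →
        ∃ l : Code, W e V (encode (i, j, l)) ∧ Red l V (ch (W r Y))) →
      le (ch (J X)) V := by
    intro q
    by_cases hc : Cof (K q.unpair.1 q.unpair.2.unpair.1)
    · obtain ⟨z₁, hz₁⟩ := main2F allP K7 K9 r z₀ hr (K q.unpair.1 q.unpair.2.unpair.1)
        (clo_of_closed (hK _ _)) hc q.unpair.2.unpair.2
      exact ⟨z₁, fun X hX _ V hV e h2 h3 => hz₁ X hX V hV e h2 h3⟩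
    · unfold Cof at hc
      push Not at hc
      obtain ⟨z, hz⟩ := hc
      exact ⟨z, fun X hX hXK => absurd hX (hz X hXK)⟩
  choose z hz using h1
  refine ⟨muN z, fun X V hX hV k e h2 h3 => ?_⟩
  have h4 : X ∈ ⋃ m, K (a X) m := by
    rw [← hKa (a X)]
    exact rfl
  obtain ⟨m, hm⟩ := Set.mem_iUnion.1 h4
  have h5 := hz (Nat.pair (a X) (Nat.pair m k)) X (le_trans' (le_muN z _) hX)
  simp only [Nat.unpair_pair] at h5
  refine h5 hm V hV e h2 (fun i j Y hY hXY hYX => h3 i j Y hXY hYX ?_)
  have h6 : Y ∈ {Y | a Y = a X} := by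
    rw [hKa (a X)]
    exact Set.mem_iUnion.2 ⟨m, hY⟩
  exact h6

theorem global_form (r : Code) (z₀ : ℕ → Bool)
    (hr : ∀ X, le z₀ X → ¬ le (ch (W r X)) X ∧ le X (ch (W r X)) ∧ ¬ le (ch (J X)) (ch (W r X)))
    (a : (ℕ → Bool) → ℕ) (ha : IsColouring a) (b : (ℕ → Bool) → ℕ) (k : ℕ → ℕ) :
    ∃ i j : Code, ∀ L : ℕ → Finset Code, (∀ c, (L c).card ≤ k c) → ∀ z : ℕ → Bool,
      ∃ X Y : ℕ → Bool, le z X ∧ Red i X Y ∧ Red j Y X ∧ a Y = a X ∧
        ∀ l ∈ L (b X), ¬ Red l (ch (W r X)) (ch (W r Y)) := by
  classical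
  by_contra hcon
  push Not at hcon
  choose L hL z hz using hcon
  obtain ⟨z₁, hz₁⟩ := local_form r z₀ (fun X hX => (hr X hX).1) a ha
  -- the parameters
  set tb : ℕ → Bool := fun q => decide (Denumerable.ofNat Code q.unpair.2.unpair.2.unpair.2 ∈
    L (Denumerable.ofNat Code q.unpair.2.unpair.1)
      (Denumerable.ofNat Code q.unpair.2.unpair.2.unpair.1) q.unpair.1) with htb
  set par : ℕ → ℕ → Bool := fun m => if m = 0 then z₀ else if m = 1 then z₁ else
    if m = 2 then tb else z (Denumerable.ofNat Code (m - 3).unpair.1)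
      (Denumerable.ofNat Code (m - 3).unpair.2) with hpar
  have g0 : le z₀ (muN par) := by have := le_muN par 0; simpa [hpar] using this
  have g1 : le z₁ (muN par) := by have := le_muN par 1; simpa [hpar] using this
  have g2 : le tb (muN par) := by have := le_muN par 2; simpa [hpar] using this
  have g3 : ∀ i j : Code, le (z i j) (muN par) := by
    intro i j
    have h5 := le_muN par (Nat.pair (encode i) (encode j) + 3)
    have e0 : ¬ (Nat.pair (encode i) (encode j) + 3 = 0) := by omega
    have e1 : ¬ (Nat.pair (encode i) (encode j) + 3 = 1) := by omega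
    have e2 : ¬ (Nat.pair (encode i) (encode j) + 3 = 2) := by omega
    have e3 : Nat.pair (encode i) (encode j) + 3 - 3 = Nat.pair (encode i) (encode j) := by omega
    simp only [hpar, e0, e1, e2, e3, if_false, Nat.unpair_pair, Denumerable.ofNat_encode] at h5
    exact h5
  set X := muN par with hXdef
  obtain ⟨-, hXV, hJ⟩ := hr X g0
  set V := ch (W r X) with hV
  have hmem : REIn (St V) (fun q : ℕ => tb (Nat.pair (b X) q) = true) :=
    REIn.comp (S := fun n : ℕ => n ∈ St tb) (f := fun q : ℕ => Nat.pair (b X) q)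
      (turingReducible_iff.1 (le_trans' g2 hXV)).1 (by fun_prop)
  have hmem' : REIn (St V) (fun q : ℕ => ∃ w : Code × Code × Code, q = encode w ∧
      tb (Nat.pair (b X) (Nat.pair (encode w.1) (Nat.pair (encode w.2.1) (encode w.2.2)))) =
        true) := by
    refine REIn.ex (S := fun (q : ℕ) (w : Code × Code × Code) => q = encode w ∧
      tb (Nat.pair (b X) (Nat.pair (encode w.1) (Nat.pair (encode w.2.1) (encode w.2.2)))) =
        true) (REIn.and ?_ ?_)
    · exact REIn.of_re (Pool.Agent.Helper446.RE.eq (by fun_prop) (by fun_prop))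
    · exact REIn.comp (S := fun q : ℕ => tb (Nat.pair (b X) q) = true)
        (f := fun x : ℕ × (Code × Code × Code) =>
          Nat.pair (encode x.2.1) (Nat.pair (encode x.2.2.1) (encode x.2.2.2))) hmem
        (by fun_prop)
  obtain ⟨e, he⟩ := K10 V _ hmem'
  have hmain : ∀ i j l : Code, W e V (encode (i, j, l)) ↔ l ∈ L i j (b X) := by
    intro i j l
    rw [← he]
    constructor
    · rintro ⟨w, hw, hw'⟩
      have h6 := Encodable.encode_injective hw
      subst h6
      simpa [htb] using hw'
    · intro h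
      exact ⟨(i, j, l), rfl, by simpa [htb] using h⟩
  refine hJ (hz₁ X V g1 hXV (k (b X)) e (fun i j => ?_) (fun i j Y hXY hYX haY => ?_))
  · have h7 : {l : Code | W e V (encode (i, j, l))} = (L i j (b X) : Set Code) := by
      ext l
      exact hmain i j l
    rw [h7, Set.encard_coe_eq_coe_finsetCard]
    exact_mod_cast hL i j (b X)
  · obtain ⟨l, hl, hl'⟩ := hz i j X Y (g3 i j) hXY hYX haY
    exact ⟨l, (hmain i j l).2 hl, hl'⟩

theorem red_unique {c : Code} {X Y Z : ℕ → Bool} (h1 : Red c X Y) (h2 : Red c X Z) : Y = Z := by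
  funext n
  have h3 := (h2 n (Y n).toNat).1 ((h1 n _).2 rfl)
  revert h3
  cases Y n <;> cases Z n <;> simp

theorem sharp : ∃ a : (ℕ → Bool) → ℕ, ∀ X Y, le X Y → le Y X → a X = a Y → X = Y := by
  classical
  let s : Setoid (ℕ → Bool) :=
    { r := fun X Y => le X Y ∧ le Y X
      iseqv := ⟨fun X => ⟨le_refl' X, le_refl' X⟩, fun h => ⟨h.2, h.1⟩,
        fun h1 h2 => ⟨le_trans' h1.1 h2.1, le_trans' h2.2 h1.2⟩⟩ }
  have h1 : ∀ X : ℕ → Bool, ∃ c : Code, Red c (Quotient.mk s X).out X := fun X =>
    (le_iff _ _).1 (Quotient.exact (Quotient.out_eq (Quotient.mk s X))).2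
  choose c hc using h1
  refine ⟨fun X => encode (c X), fun X Y hXY hYX h => ?_⟩
  have h2 : Quotient.mk s X = Quotient.mk s Y := Quotient.sound ⟨hXY, hYX⟩
  have h3 := hc X
  rw [h2, Encodable.encode_injective h] at h3
  exact red_unique h3 (hc Y)

/-- Pointwise limits of continuous functions are colourings. -/
theorem limits (φ : ℕ → (ℕ → Bool) → ℕ) (hφ : ∀ s, Continuous (φ s)) (a : (ℕ → Bool) → ℕ)
    (ha : ∀ Y, ∃ m, ∀ s, m ≤ s → φ s Y = a Y) : IsColouring a := by
  intro c
  refine ⟨fun m => ⋂ s, ⋂ _ : m ≤ s, φ s ⁻¹' {c}, fun m => ?_, ?_⟩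
  · exact isClosed_iInter fun s => isClosed_iInter fun _ => (isClosed_discrete {c}).preimage (hφ s)
  · ext Y
    simp only [Set.mem_ofPred_eq, Set.mem_iUnion, Set.mem_iInter, Set.mem_preimage,
      Set.mem_singleton_iff]
    constructor
    · rintro rfl
      exact ha Y
    · rintro ⟨m, hm⟩
      obtain ⟨m', hm'⟩ := ha Y
      rw [← hm' (max m m') (le_max_right _ _), hm (max m m') (le_max_left _ _)]

theorem result :
    (∀ (r : Code) (z₀ : ℕ → Bool), (∀ X, le z₀ X → ¬ le (ch (W r X)) X) →
      ∀ a : (ℕ → Bool) → ℕ, IsColouring a → ∃ z : ℕ → Bool, ∀ X V : ℕ → Bool, le z X → le X V →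
        ∀ (k : ℕ) (e : Code),
          (∀ i j : Code, {l : Code | W e V (encode (i, j, l))}.encard ≤ k) →
          (∀ (i j : Code) (Y : ℕ → Bool), Red i X Y → Red j Y X → a Y = a X →
            ∃ l : Code, W e V (encode (i, j, l)) ∧ Red l V (ch (W r Y))) →
          le (ch (J X)) V) ∧
    (∀ (r : Code) (z₀ : ℕ → Bool),
      (∀ X, le z₀ X → ¬ le (ch (W r X)) X ∧ le X (ch (W r X)) ∧ ¬ le (ch (J X)) (ch (W r X))) →
      ∀ a : (ℕ → Bool) → ℕ, IsColouring a → ∀ (b : (ℕ → Bool) → ℕ) (k : ℕ → ℕ),
        ∃ i j : Code, ∀ L : ℕ → Finset Code, (∀ c, (L c).card ≤ k c) → ∀ z : ℕ → Bool,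
          ∃ X Y : ℕ → Bool, le z X ∧ Red i X Y ∧ Red j Y X ∧ a Y = a X ∧
            ∀ l ∈ L (b X), ¬ Red l (ch (W r X)) (ch (W r Y))) ∧
    (∃ a : (ℕ → Bool) → ℕ, ∀ X Y, le X Y → le Y X → a X = a Y → X = Y) ∧
    ∀ φ : ℕ → (ℕ → Bool) → ℕ, (∀ s, Continuous (φ s)) → ∀ a : (ℕ → Bool) → ℕ,
      (∀ Y, ∃ m, ∀ s, m ≤ s → φ s Y = a Y) → IsColouring a :=
  ⟨local_form, global_form, sharp, limits⟩

end Pool.Agent.Results.MP_57825d_lc.ColouredNonuniformity
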