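import Pool.Agent.Q116.PI.Diag
import Pool.Agent.H548R2.Post.Main

/-!
# The complexity of the set of degree invariant solutions to Post's problem

`TLe` (Turing reducibility of sets, given by their characteristic sequences, from Mathlib's
`TuringReducible`) is defined in `Pool/Agent/Helper227/Defs.lean`; `WE X e` (the `e`-th set
computably enumerable relative to `X`) and `jump X` (the Turing jump of `X`) are defined in
`Pool/Agent/Helper227/RD/Jump.lean`; `chr S` (the characteristic sequence of `S`) is defined in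
`Pool/Agent/H548R2/Post/Main.lean`. `flip X` (the change of the first digit) and `IsPi11` (the
`Π¹₁` predicates of numbers, in Kleene's normal form) are defined in `Pool/Agent/Q116/PI/Core.lean`;
`Hard S T` in `Pool/Agent/Q116/PI/Diag.lean` says that `S ⊆ T` and that all `Π¹₁` predicates are
reduced by computable functions to all sets between `S` and `T`.

The idea: for a computable tree `T` let `W_{g}^X` be the join of `W_r^X` and of those elements `m`
of `X'` for which the first `m` numbers coded by `X` form a node of `T`. If `T` has no infinite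
path, the second set is finite for all `X`; if `T` has an infinite path, it is `X'` for some `X`,
and empty after a change of the first digit of `X`.
-/

set_option autoImplicit false

namespace Pool.Agent.Results.MP_57825d_lc.IndexSets

open Pool.Agent.Helper227 Pool.Agent.H548R2.Post Pool.Agent.Q116.PI

/-- Condition (i) of the question at the set `X`: `X <_T W_e^X <_T X'`. -/
def Between (e : ℕ) (X : ℕ → Bool) : Prop :=
  TLe X (chr (WE X e)) ∧ ¬ TLe (chr (WE X e)) X ∧
    TLe (chr (WE X e)) (jump X) ∧ ¬ TLe (jump X) (chr (WE X e))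

/-- Condition (ii) of the question, for the sets `X ≥_T z`. -/
def InvariantAbove (z : ℕ → Bool) (e : ℕ) : Prop :=
  ∀ X Y : ℕ → Bool, TLe z X → TLe X Y → TLe Y X →
    TLe (chr (WE X e)) (chr (WE Y e)) ∧ TLe (chr (WE Y e)) (chr (WE X e))

/-- The degree invariant solutions to Post's problem on the cone above `z`. -/
def SolutionsAbove (z : ℕ → Bool) : Set ℕ :=
  {e | (∀ X, TLe z X → Between e X) ∧ InvariantAbove z e}

/-- The degree invariant solutions to Post's problem. -/
def Solutions : Set ℕ :=
  {e | (∀ X, Between e X) ∧ ∀ X Y : ℕ → Bool, TLe X Y → TLe Y X →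
    TLe (chr (WE X e)) (chr (WE Y e)) ∧ TLe (chr (WE Y e)) (chr (WE X e))}

/-- The indices which satisfy (i) on some cone. -/
def BetweenOnCone : Set ℕ := {e | ∃ z : ℕ → Bool, ∀ X, TLe z X → Between e X}

/-- The indices which are invariant under the change of the first digit on some cone. -/
def FlipInvariantOnCone : Set ℕ :=
  {e | ∃ z : ℕ → Bool, ∀ X, TLe z X → TLe (chr (WE X e)) (chr (WE (flip X) e))}

theorem flip_above {e : ℕ} {z : ℕ → Bool} (h : InvariantAbove z e) : e ∈ FlipInvariantOnCone :=
  ⟨z, fun X hX => (h X (flip X) hX (tLe_flip' X) (tLe_flip X)).1⟩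

theorem main_hard {r : ℕ} {z₀ : ℕ → Bool} (h : ∀ X, TLe z₀ X → Between r X) {P : ℕ → Prop}
    (hP : IsPi11 P) : ∃ g : ℕ → ℕ, Computable g ∧ ∀ n,
      (P n → (∀ X, Between r X → Between (g n) X) ∧ ∀ z, InvariantAbove z r →
        InvariantAbove z (g n)) ∧
      (¬ P n → g n ∉ BetweenOnCone ∪ FlipInvariantOnCone) := by
  obtain ⟨g, hg, hgn⟩ := core hP r
  refine ⟨g, hg, fun n => ⟨fun hn => ?_, fun hn => ?_⟩⟩
  · have h1 := (hgn n).1 hn
    refine ⟨fun X hX => ?_, fun z hz X Y hX h2 h3 => ?_⟩
    · obtain ⟨a1, a2⟩ := h1 X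
      obtain ⟨b1, b2, b3, b4⟩ := hX
      exact ⟨b1.trans a2, fun h => b2 (a2.trans h), a1.trans b3, fun h => b4 (h.trans a1)⟩
    · obtain ⟨b1, b2⟩ := hz X Y hX h2 h3
      exact ⟨((h1 X).1.trans b1).trans (h1 Y).2, ((h1 Y).1.trans b2).trans (h1 X).2⟩
  · have h2 := (hgn n).2 hn
    rintro (⟨z, hz⟩ | ⟨z, hz⟩)
    · obtain ⟨X, h3, h4, -, -⟩ := h2 z
      exact (hz X h3).2.2.2 h4
    · obtain ⟨X, h3, h4, h5, -⟩ := h2 (join z z₀)
      have h6 : TLe z (join z z₀) := by
        refine tLe_of_computable (f := fun m => 2 * m)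
          (Primrec.nat_mul.comp (Primrec.const 2) Primrec.id).to_comp fun m => ?_
        unfold join
        rw [if_pos (by omega)]
        congr 1
        omega
      have h7 : TLe z₀ (join z z₀) := by
        refine tLe_of_computable (f := fun m => 2 * m + 1)
          (Primrec.succ.comp (Primrec.nat_mul.comp (Primrec.const 2) Primrec.id)).to_comp
          fun m => ?_
        unfold join
        rw [if_neg (by omega)]
        congr 1
        omega
      have h8 : Between r (flip X) := h _ ((h7.trans h3).trans (tLe_flip' X))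
      exact h8.2.2.2 (((((tLe_flip X).jump.trans h4).trans (hz X (h6.trans h3)))).trans h5)

/-- `Hard S T`, and no set between `S` and `T` is `Σ¹₁` (has a `Π¹₁` complement). -/
def HardNotSigma (S T : Set ℕ) : Prop :=
  Hard S T ∧ ∀ U : Set ℕ, S ⊆ U → U ⊆ T → ¬ IsPi11 fun e => e ∉ U

theorem Hard.full {S T : Set ℕ} (h : Hard S T) : HardNotSigma S T :=
  ⟨h, fun _ h1 h2 => h.not_sigma h1 h2⟩

/-- 1. Condition (i): all sets of indices between those which satisfy (i) everywhere and those which
satisfy (i) on some cone are `Π¹₁`-hard and not `Σ¹₁`.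
2. Condition (ii): the same for the sets between the degree invariant indices and those which are
invariant under the change of the first digit on some cone.
3. If there is a degree invariant solution to Post's problem, then the same holds for all sets of
indices which contain all the degree invariant solutions, and which consist of indices which satisfy
(i) on some cone or are invariant under the change of the first digit on some cone; for example for
the set of all degree invariant solutions, and for the set of the solutions on cones.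
4. The same for the degree invariant solutions on the cone above any given set. -/
theorem result :
    HardNotSigma {e | ∀ X, Between e X} BetweenOnCone ∧
    HardNotSigma {e | ∀ X Y : ℕ → Bool, TLe X Y → TLe Y X →
      TLe (chr (WE X e)) (chr (WE Y e)) ∧ TLe (chr (WE Y e)) (chr (WE X e))}
      FlipInvariantOnCone ∧
    (Solutions.Nonempty →
      HardNotSigma Solutions (BetweenOnCone ∪ FlipInvariantOnCone) ∧
      HardNotSigma Solutions {e | ∃ z, e ∈ SolutionsAbove z}) ∧
    ∀ z, (SolutionsAbove z).Nonempty →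
      HardNotSigma (SolutionsAbove z) (BetweenOnCone ∪ FlipInvariantOnCone) := by
  obtain ⟨e₀, he₀, -⟩ := main_both (fun _ _ => false) (Computable.const false).to₂
  have hb₀ : ∀ X, Between e₀ X := fun X => ⟨(he₀ X).1, (he₀ X).2.1, (he₀ X).2.2.1, (he₀ X).2.2.2.1⟩
  have hjump : ∀ X, ¬ TLe (jump X) X := fun X h => (hb₀ X).2.2.2 (h.trans (hb₀ X).1)
  have hsol : ∀ {r : ℕ} {z₀ : ℕ → Bool}, r ∈ SolutionsAbove z₀ →
      Hard (SolutionsAbove z₀) (BetweenOnCone ∪ FlipInvariantOnCone) := by
    rintro r z₀ ⟨h1, h2⟩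
    refine ⟨fun e he => Or.inl ⟨z₀, he.1⟩, fun P hP => ?_⟩
    obtain ⟨g, hg, hgn⟩ := main_hard h1 hP
    exact ⟨g, hg, fun n => ⟨fun hn => ⟨fun X hX => ((hgn n).1 hn).1 X (h1 X hX),
      ((hgn n).1 hn).2 _ h2⟩, (hgn n).2⟩⟩
  have hz : ∀ X, TLe (fun _ => false) X := by
    intro X
    rw [tLe_iff_SI]
    exact SI.of_prim (Primrec.eq.comp (Primrec.const false) Primrec.snd)
  have hS : Solutions = SolutionsAbove fun _ => false := by
    ext e
    exact ⟨fun h => ⟨fun X _ => h.1 X, fun X Y _ h1 h2 => h.2 X Y h1 h2⟩,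
      fun h => ⟨fun X => h.1 X (hz X), fun X Y h1 h2 => h.2 X Y (hz X) h1 h2⟩⟩
  refine ⟨Hard.full ⟨fun e he => ⟨fun _ => false, fun X _ => he X⟩, fun P hP => ?_⟩,
    Hard.full ⟨fun e he => ?_, fun P hP => ?_⟩, ?_, fun z hz => ?_⟩
  · obtain ⟨g, hg, hgn⟩ := main_hard (z₀ := fun _ => false) (fun X _ => hb₀ X) hP
    exact ⟨g, hg, fun n => ⟨fun hn X => ((hgn n).1 hn).1 X (hb₀ X),
      fun hn h => (hgn n).2 hn (Or.inl h)⟩⟩
  · exact ⟨fun _ => false, fun X _ => (he X (flip X) (tLe_flip' X) (tLe_flip X)).1⟩
  · obtain ⟨c, hc⟩ := Nat.Partrec.Code.exists_code.1 Nat.Partrec.none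
    have hW : ∀ X, chr (WE X (Encodable.encode c)) = fun _ => false := by
      intro X
      funext n
      unfold chr
      rw [decide_eq_false_iff_not]
      rintro ⟨k, hk⟩
      rw [Denumerable.ofNat_encode, hc] at hk
      exact hk
    obtain ⟨g, hg, hgn⟩ := core hP (Encodable.encode c)
    refine ⟨g, hg, fun n => ⟨fun hn X Y _ _ => ?_, ?_⟩⟩
    · have h1 := (hgn n).1 hn
      have h2 := fun X Y => (h1 X).1.trans ((hW X ▸ hz (chr (WE Y (g n))) :
        TLe (chr (WE X (Encodable.encode c))) (chr (WE Y (g n)))))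
      exact ⟨h2 X Y, h2 Y X⟩
    · rintro hn ⟨z, hz1⟩
      obtain ⟨X, h3, h4, h5, -⟩ := (hgn n).2 hn z
      rw [hW] at h5
      exact hjump X (((h4.trans (hz1 X h3)).trans h5).trans (hz X))
  · rintro ⟨r, hr⟩
    rw [hS] at hr ⊢
    have h1 := hsol hr
    refine ⟨Hard.full h1, Hard.full ⟨fun e he => ⟨_, he⟩, fun P hP => ?_⟩⟩
    obtain ⟨g, hg, hgn⟩ := h1.2 P hP
    refine ⟨g, hg, fun n => ⟨(hgn n).1, fun hn => ?_⟩⟩
    rintro ⟨z, hz⟩
    exact (hgn n).2 hn (Or.inl ⟨z, hz.1⟩)
  · obtain ⟨r, hr⟩ := hz
    exact Hard.full (hsol hr)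

end Pool.Agent.Results.MP_57825d_lc.IndexSets
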